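import Pool.Agent.helper16.GK.Spec

/-!
# gk:UNF (MP_2e0e07_nt): the Frobenius element at an unramified prime is unique
-/

set_option autoImplicit false

namespace Pool.Agent.GK

open NumberField IsDedekindDomain

theorem UNF (hDIF : DIF_stmt) : UNF_stmt := by
  intro K L _ _ _ _ _ _ P q σ τ hP hP0 hd hσ hτ
  by_contra hne
  apply hd
  rw [hDIF K L P hP hP0]
  refine ⟨σ * τ⁻¹, fun h => hne (mul_inv_eq_one.1 h), fun y => ?_⟩
  have h1 := hσ (τ⁻¹ • y)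
  have h2 := hτ (τ⁻¹ • y)
  rw [smul_inv_smul] at h2
  have h3 := P.sub_mem h1 h2
  rw [mul_smul]
  have h4 : σ • τ⁻¹ • y - y = σ • τ⁻¹ • y - (τ⁻¹ • y) ^ q - (y - (τ⁻¹ • y) ^ q) := by ring
  rw [h4]
  exact h3

end Pool.Agent.GK
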